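import Pool.Agent.H85.WE.DS

/-!
# Edge-disjoint paths: one demand at every vertex
-/

set_option autoImplicit false

namespace Pool.Agent.H85.WE

open Finset Pool.Agent.H71.WE

section
variable {V E : Type} [Fintype V] [DecidableEq V] [DecidableEq E]

theorem cn_univ (G : Gr V E) (A : Finset E) : cn G A univ = 0 := by
  unfold cn
  rw [card_eq_zero, filter_eq_empty_iff]
  intro e _ h
  unfold Cr at h
  simp at h

/-- deleting an edge -/
theorem cn_erase (G : Gr V E) (A : Finset E) (g : E) (hg : g ∈ A) (Y : Finset V) :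
    cn G (A.erase g) Y + (if Cr G Y g then 1 else 0) = cn G A Y := by
  unfold cn
  by_cases h : Cr G Y g
  · rw [if_pos h]
    have : (A.erase g).filter (fun e => Cr G Y e) = (A.filter (fun e => Cr G Y e)).erase g := by
      ext e
      simp only [mem_filter, mem_erase]
      tauto
    rw [this]
    exact card_erase_add_one (mem_filter.2 ⟨hg, h⟩)
  · rw [if_neg h, add_zero]
    congr 1
    ext e
    simp only [mem_filter, mem_erase]
    constructor
    · rintro ⟨⟨_, h2⟩, h3⟩
      exact ⟨h2, h3⟩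
    · rintro ⟨h2, h3⟩
      refine ⟨⟨?_, h2⟩, h3⟩
      rintro rfl
      exact h h3

/-- an edge inside a minimal tight set (or `V`), and its cuts -/
theorem good_edge (h3 : T_CUT) (h4 : T_CUX) (G : Gr V E) (A : Finset E) (c : ℕ)
    (hce : Even c) (hec : Ec G A c) (hodd : ∀ v : V, ¬ Even (cn G A {v}))
    (hV : ∀ v : V, ({v} : Finset V) ≠ univ) (x1 : V) :
    ∃ g ∈ A, ∃ v w : V, v ≠ w ∧ Jn G g v w ∧
      ∀ Y : Finset V, v ∉ Y → w ∈ Y → c + 1 ≤ cn G A Y := by
  classical
  obtain ⟨-, hsub, hpos, -⟩ := h3 V E G A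
  obtain ⟨-, hx2, -⟩ := h4 V E G A
  have hdeg : ∀ v : V, c + 1 ≤ cn G A {v} := by
    intro v
    have e1 := hec {v} (singleton_nonempty v) (hV v)
    have e2 := hodd v
    obtain ⟨k, hk⟩ := hce
    rw [Nat.even_iff] at e2
    omega
  -- a minimal tight set or the whole set
  obtain ⟨X, hXne, hXc, hXmin⟩ : ∃ X : Finset V, X.Nonempty ∧ cn G A X ≤ c ∧
      (∀ Y : Finset V, Y.Nonempty → Y ≠ univ → cn G A Y = c →
        X.card ≤ Y.card ∧ X ≠ univ ∧ cn G A X = c) := by
    by_cases hT : ((univ : Finset (Finset V)).filter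
        (fun X => X.Nonempty ∧ X ≠ univ ∧ cn G A X = c)).Nonempty
    · obtain ⟨X, hX, hmin⟩ := exists_min_image _ (fun X => X.card) hT
      rw [mem_filter] at hX
      refine ⟨X, hX.2.1, hX.2.2.2.le, ?_⟩
      intro Y h1 h2 h3'
      exact ⟨hmin Y (mem_filter.2 ⟨mem_univ _, h1, h2, h3'⟩), hX.2.2.1, hX.2.2.2⟩
    · refine ⟨univ, ⟨x1, mem_univ _⟩, by rw [cn_univ]; exact Nat.zero_le _, ?_⟩
      intro Y h1 h2 h3'
      exact absurd ⟨Y, mem_filter.2 ⟨mem_univ _, h1, h2, h3'⟩⟩ hT
  obtain ⟨x0, hx0⟩ := hXne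
  have hXx : (X \ {x0}).Nonempty := by
    rw [sdiff_nonempty]
    intro h
    have hX1 : X = {x0} := by
      apply Subset.antisymm h
      exact singleton_subset_iff.2 hx0
    have := hdeg x0
    rw [← hX1] at this
    omega
  have hd0 : Disjoint ({x0} : Finset V) (X \ {x0}) := disjoint_sdiff
  have e1 := hx2 {x0} (X \ {x0}) hd0
  have hun : ({x0} : Finset V) ∪ (X \ {x0}) = X := by
    rw [union_sdiff_self_eq_union]
    exact union_eq_right.2 (singleton_subset_iff.2 hx0)
  rw [hun] at e1
  have e2 := hdeg x0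
  have e3 : c ≤ cn G A (X \ {x0}) := by
    apply hec _ hXx
    intro h
    have : x0 ∈ X \ {x0} := by rw [h]; exact mem_univ _
    simp at this
  have hcard : 0 < (A.filter (fun e => (G.s e ∈ ({x0} : Finset V) ∧ G.t e ∈ X \ {x0}) ∨
      (G.s e ∈ X \ {x0} ∧ G.t e ∈ ({x0} : Finset V)))).card := by omega
  obtain ⟨g, hg⟩ := card_pos.1 hcard
  rw [mem_filter] at hg
  obtain ⟨hgA, hg⟩ := hg
  -- the ends
  obtain ⟨v, w, hvw, hj, hvX, hwX⟩ : ∃ v w : V, v ≠ w ∧ Jn G g v w ∧ v ∈ X ∧ w ∈ X := by
    rcases hg with ⟨hs, ht⟩ | ⟨hs, ht⟩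
    · rw [mem_singleton] at hs
      rw [mem_sdiff, mem_singleton] at ht
      exact ⟨G.s g, G.t g, fun h => ht.2 (by rw [← h, hs]), Or.inl ⟨rfl, rfl⟩,
        by rw [hs]; exact hx0, ht.1⟩
    · rw [mem_singleton] at ht
      rw [mem_sdiff, mem_singleton] at hs
      exact ⟨G.s g, G.t g, fun h => hs.2 (by rw [h, ht]), Or.inl ⟨rfl, rfl⟩,
        hs.1, by rw [ht]; exact hx0⟩
  refine ⟨g, hgA, v, w, hvw, hj, ?_⟩
  intro Y hvY hwY
  have hYu : Y ≠ univ := fun h => hvY (by rw [h]; exact mem_univ _)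
  have hYc := hec Y ⟨w, hwY⟩ hYu
  by_contra hlt
  have hYt : cn G A Y = c := by omega
  obtain ⟨m1, m2, m3⟩ := hXmin Y ⟨w, hwY⟩ hYu hYt
  by_cases hU : X ∪ Y = univ
  · have e4 := hpos X Y
    have hXY : (X \ Y).Nonempty := ⟨v, mem_sdiff.2 ⟨hvX, hvY⟩⟩
    have hXYu : X \ Y ≠ univ := by
      intro h
      have : w ∈ X \ Y := by rw [h]; exact mem_univ _
      exact (mem_sdiff.1 this).2 hwY
    have hYX : (Y \ X).Nonempty := by
      rw [sdiff_nonempty]
      intro h
      apply m2
      rw [← hU]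
      exact (union_eq_left.2 h).symm
    have hYXu : Y \ X ≠ univ := by
      intro h
      have : w ∈ Y \ X := by rw [h]; exact mem_univ _
      exact (mem_sdiff.1 this).2 hwX
    have e5 := hec _ hXY hXYu
    have e6 := hec _ hYX hYXu
    have e7 : cn G A (X \ Y) = c := by omega
    obtain ⟨n1, -, -⟩ := hXmin _ hXY hXYu e7
    have e8 : (X \ Y).card < X.card := by
      apply card_lt_card
      refine ⟨sdiff_subset, ?_⟩
      intro h
      exact (mem_sdiff.1 (h hwX)).2 hwY
    omega
  · have e4 := hsub X Y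
    have hXY : (X ∩ Y).Nonempty := ⟨w, mem_inter.2 ⟨hwX, hwY⟩⟩
    have hXYu : X ∩ Y ≠ univ := by
      intro h
      have : v ∈ X ∩ Y := by rw [h]; exact mem_univ _
      exact hvY (mem_inter.1 this).2
    have e5 := hec _ hXY hXYu
    have e6 := hec (X ∪ Y) ⟨v, mem_union_left _ hvX⟩ hU
    have e7 : cn G A (X ∩ Y) = c := by omega
    obtain ⟨n1, -, -⟩ := hXmin _ hXY hXYu e7
    have e8 : (X ∩ Y).card < X.card := by
      apply card_lt_card
      refine ⟨inter_subset_left, ?_⟩
      intro h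
      exact hvY (mem_inter.1 (h hvX)).2
    omega

/-- moving the ends at `v` to `w` -/
theorem move_card {I : Type} (J : Finset I) (a : I → V) (v w : V) (hwv : w ≠ v)
    (x : {x : V // x ≠ v}) :
    (J.filter (fun i => (if h : a i ≠ v then (⟨a i, h⟩ : {x : V // x ≠ v}) else ⟨w, hwv⟩) =
      x)).card = (J.filter (fun i => a i = x.1)).card +
        (if x.1 = w then (J.filter (fun i => a i = v)).card else 0) := by
  classical
  by_cases hx : x.1 = w
  · rw [if_pos hx]
    rw [← card_union_of_disjoint]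
    · congr 1
      ext i
      simp only [mem_filter, mem_union]
      by_cases h : a i ≠ v
      · rw [dif_pos h, Subtype.ext_iff]
        tauto
      · rw [dif_neg h, Subtype.ext_iff]
        push Not at h
        constructor
        · rintro ⟨h1, _⟩
          exact Or.inr ⟨h1, h⟩
        · rintro (⟨h1, _⟩ | ⟨h1, _⟩)
          · exact ⟨h1, hx.symm⟩
          · exact ⟨h1, hx.symm⟩
    · rw [disjoint_left]
      intro i hi hi'
      rw [mem_filter] at hi hi'
      exact x.2 (by rw [← hi.2, hi'.2])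
  · rw [if_neg hx, add_zero]
    congr 1
    apply filter_congr
    intro i _
    by_cases h : a i ≠ v
    · rw [dif_pos h, Subtype.ext_iff]
    · rw [dif_neg h, Subtype.ext_iff]
      push Not at h
      constructor
      · intro h1
        exact absurd h1.symm hx
      · intro h1
        exact absurd (by rw [← h1, h]) x.2

end

theorem pf_DB (h0 : T_RQ) (h1 : T_CSP) (h2 : T_LFT) (h3 : T_CUT) (h4 : T_CUX) : T_DB := by
  classical
  intro V E I _ _ _ _ G A a b J c hDH hc1 hJ htk hyp
  obtain ⟨hce, hec, hJc, hpar⟩ := hDH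
  -- no two ends at one vertex
  have hab : ∀ i ∈ J, a i ≠ b i := by
    intro i hi h
    have e := htk (a i)
    unfold tk at e
    have k1 : 0 < (J.filter (fun j => a j = a i)).card :=
      card_pos.2 ⟨i, mem_filter.2 ⟨hi, rfl⟩⟩
    have k2 : 0 < (J.filter (fun j => b j = a i)).card :=
      card_pos.2 ⟨i, mem_filter.2 ⟨hi, h.symm⟩⟩
    omega
  have huniq : ∀ v : V, ∀ i ∈ J, ∀ j ∈ J, i ≠ j → (a i = v ∨ b i = v) →
      (a j = v ∨ b j = v) → False := by
    intro v i hi j hj hij hi' hj'
    have e := htk v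
    unfold tk at e
    have two : ∀ f : I → V, f i = v → f j = v → 2 ≤ (J.filter (fun k => f k = v)).card := by
      intro f hfi hfj
      rw [← card_pair hij]
      apply card_le_card
      intro k hk
      rw [mem_insert, mem_singleton] at hk
      rcases hk with rfl | rfl
      · exact mem_filter.2 ⟨hi, hfi⟩
      · exact mem_filter.2 ⟨hj, hfj⟩
    rcases hi' with hi' | hi' <;> rcases hj' with hj' | hj'
    · have := two a hi' hj'
      omega
    · have k1 : 0 < (J.filter (fun k => a k = v)).card :=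
        card_pos.2 ⟨i, mem_filter.2 ⟨hi, hi'⟩⟩
      have k2 : 0 < (J.filter (fun k => b k = v)).card :=
        card_pos.2 ⟨j, mem_filter.2 ⟨hj, hj'⟩⟩
      omega
    · have k1 : 0 < (J.filter (fun k => a k = v)).card :=
        card_pos.2 ⟨j, mem_filter.2 ⟨hj, hj'⟩⟩
      have k2 : 0 < (J.filter (fun k => b k = v)).card :=
        card_pos.2 ⟨i, mem_filter.2 ⟨hi, hi'⟩⟩
      omega
    · have := two b hi' hj'
      omega
  obtain ⟨i1, hi1⟩ := hJ
  have hV : ∀ v : V, ({v} : Finset V) ≠ univ := by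
    intro v h
    have k1 : a i1 ∈ ({v} : Finset V) := by rw [h]; exact mem_univ _
    have k2 : b i1 ∈ ({v} : Finset V) := by rw [h]; exact mem_univ _
    rw [mem_singleton] at k1 k2
    exact hab i1 hi1 (by rw [k1, k2])
  have hodd : ∀ v : V, ¬ Even (cn G A {v}) := by
    intro v hv
    have e := hpar v
    rw [htk v] at e
    rw [Nat.even_iff] at e hv
    omega
  obtain ⟨g, hgA, v, w, hvw, hj, hY⟩ := good_edge h3 h4 G A c hce hec hodd hV (a i1)
  have hwv : w ≠ v := hvw.symm
  have hcr : ∀ Y : Finset V, v ∉ Y → (Cr G Y g ↔ w ∈ Y) := by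
    intro Y hvY
    rw [jn_cr hj Y]
    tauto
  have hcut1 : ∀ Y : Finset V, v ∉ Y → Y.Nonempty → c ≤ cn G (A.erase g) Y := by
    intro Y hvY hne
    have e := cn_erase G A g hgA Y
    by_cases hwY : w ∈ Y
    · rw [if_pos ((hcr Y hvY).2 hwY)] at e
      have := hY Y hvY hwY
      omega
    · rw [if_neg (fun h => hwY ((hcr Y hvY).1 h))] at e
      have := hec Y hne (fun h => hvY (by rw [h]; exact mem_univ _))
      omega
  have hv1 : cn G (A.erase g) {v} + 1 = cn G A {v} := by
    have e := cn_erase G A g hgA {v}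
    rwa [if_pos] at e
    rw [jn_cr hj {v}]
    left
    exact ⟨mem_singleton_self v, fun h => hwv (mem_singleton.1 h)⟩
  have hve : Even (cn G (A.erase g) {v}) := by
    have := hodd v
    rw [Nat.even_iff] at this ⊢
    omega
  have hvp : 0 < cn G (A.erase g) {v} := by
    have e1 := hec {v} (singleton_nonempty v) (hV v)
    have e2 := hodd v
    rw [Nat.even_iff] at e2 hce
    omega
  obtain ⟨G', A', φ, hlf, hec', hpar'⟩ := reduce h0 h1 G (A.erase g) v c hce hve hvp hcut1
  let a' : I → {x : V // x ≠ v} := fun i => if h : a i ≠ v then ⟨a i, h⟩ else ⟨w, hwv⟩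
  let b' : I → {x : V // x ≠ v} := fun i => if h : b i ≠ v then ⟨b i, h⟩ else ⟨w, hwv⟩
  have ha1 : ∀ i, a i ≠ v → (a' i).1 = a i := by
    intro i h
    simp only [a']
    rw [dif_pos h]
  have ha2 : ∀ i, a i = v → (a' i).1 = w := by
    intro i h
    simp only [a']
    rw [dif_neg (not_not.2 h)]
  have hb1 : ∀ i, b i ≠ v → (b' i).1 = b i := by
    intro i h
    simp only [b']
    rw [dif_pos h]
  have hb2 : ∀ i, b i = v → (b' i).1 = w := by
    intro i h
    simp only [b']
    rw [dif_neg (not_not.2 h)]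
  have htk' : ∀ x : {x : V // x ≠ v}, tk a' b' J x =
      tk a b J x.1 + (if x.1 = w then 1 else 0) := by
    intro x
    have e1 := move_card J a v w hwv x
    have e2 := move_card J b v w hwv x
    have e3 := htk v
    unfold tk at e3 ⊢
    simp only [a', b']
    rw [e1, e2]
    split_ifs <;> omega
  have hDH' : DH G' A' a' b' J c := by
    refine ⟨hce, hec', hJc, ?_⟩
    intro x
    rw [htk']
    have e1 := hpar' x
    have e2 := hpar x.1
    have e3 := cn_erase G A g hgA {x.1}
    have hx : v ∉ ({x.1} : Finset V) := fun h => x.2 (mem_singleton.1 h).symm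
    have e4 := hcr {x.1} hx
    rw [mem_singleton] at e4
    rw [Nat.even_iff] at e1 e2 ⊢
    by_cases hxw : x.1 = w
    · rw [if_pos (e4.2 hxw.symm)] at e3
      rw [if_pos hxw]
      omega
    · rw [if_neg (fun h => hxw (e4.1 h).symm)] at e3
      rw [if_neg hxw]
      omega
  obtain ⟨F', hF1, hF2, hF3⟩ := hyp v G' A' a' b' hDH'
  obtain ⟨l1, -, l3⟩ := h2 V E {x : V // x ≠ v} E G (A.erase g) G' A' Subtype.val φ hlf
  have hsub : ∀ i ∈ J, (F' i).biUnion φ ⊆ A.erase g := fun i hi =>
    biUnion_subset.2 (fun e he => hlf.sub e (hF1 i hi he))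
  have hgn : ∀ i ∈ J, g ∉ (F' i).biUnion φ := fun i hi h =>
    notMem_erase g A (hsub i hi h)
  refine ⟨fun i => (F' i).biUnion φ ∪ (if a i = v ∨ b i = v then {g} else ∅), ?_, ?_, ?_⟩
  · intro i hi
    apply union_subset ((hsub i hi).trans (erase_subset g A))
    split_ifs
    · exact singleton_subset_iff.2 hgA
    · exact empty_subset _
  · intro i hi j hj' hij
    have k := l3 (F' i) (F' j) (hF1 i hi) (hF1 j hj') (hF2 i hi j hj' hij)
    show Disjoint ((F' i).biUnion φ ∪ (if a i = v ∨ b i = v then {g} else ∅))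
      ((F' j).biUnion φ ∪ (if a j = v ∨ b j = v then {g} else ∅))
    rw [disjoint_union_left, disjoint_union_right, disjoint_union_right]
    refine ⟨⟨k, ?_⟩, ?_, ?_⟩
    · split_ifs
      · exact disjoint_singleton_right.2 (hgn i hi)
      · exact disjoint_empty_right _
    · split_ifs
      · exact disjoint_singleton_left.2 (hgn j hj')
      · exact disjoint_empty_left _
    · split_ifs with q1 q2 q2
      · exact (huniq v i hi j hj' hij q1 q2).elim
      · exact disjoint_empty_right _
      · exact disjoint_empty_left _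
      · exact disjoint_empty_left _
  · intro i hi
    have k := l1 (F' i) (hF1 i hi) (a' i) (b' i) (hF3 i hi)
    show Co G ((F' i).biUnion φ ∪ (if a i = v ∨ b i = v then {g} else ∅)) (a i) (b i)
    by_cases hav : a i = v
    · have hbv : b i ≠ v := fun h => hab i hi (by rw [hav, h])
      rw [ha2 i hav, hb1 i hbv] at k
      rw [if_pos (Or.inl hav), hav, union_comm]
      exact co_trans (co_edge hj) k
    · by_cases hbv : b i = v
      · rw [ha1 i hav, hb2 i hbv] at k
        rw [if_pos (Or.inr hbv), hbv]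
        exact co_trans k (co_edge (jn_symm hj))
      · rw [ha1 i hav, hb1 i hbv] at k
        exact co_mono subset_union_left k

end Pool.Agent.H85.WE
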