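import Pool.Agent.H71.WE.Targets

/-!
# Edge-disjoint paths: a vertex without demands
-/

set_option autoImplicit false

namespace Pool.Agent.H85.WE

open Finset Pool.Agent.H71.WE

section
variable {V E : Type} [Fintype V] [DecidableEq V] [DecidableEq E]

/-- complete splitting with a constant requirement -/
theorem reduce (h0 : T_RQ) (h1 : T_CSP) (G : Gr V E) (A : Finset E) (z : V) (c : ℕ)
    (hc : Even c) (hz : Even (cn G A {z})) (hpos : 0 < cn G A {z})
    (hcut : ∀ X : Finset V, z ∉ X → X.Nonempty → c ≤ cn G A X) :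
    ∃ (G' : Gr {x : V // x ≠ z} E) (A' : Finset E) (φ : E → Finset E),
      Lf G A G' A' Subtype.val φ ∧ Ec G' A' c ∧
      ∀ x : {x : V // x ≠ z}, Even (cn G' A' {x} + cn G A {x.1}) := by
  have hrq : Rq z (fun _ : Finset V => c) := (h0 V z).1 c hc
  obtain ⟨p, hp⟩ : (A.filter (fun e => Cr G {z} e)).Nonempty := card_pos.1 hpos
  rw [mem_filter] at hp
  have hne : G.s p ≠ G.t p := by
    intro h
    have := hp.2
    unfold Cr at this
    rw [h] at this
    tauto
  obtain ⟨G', A', φ, -, -, hlf, hcut', -, -, hpar, -⟩ :=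
    h1 V E G A z (fun _ => c) hrq hz (fun X hX hne _ => hcut X hX hne) p hp.1 hne
  exact ⟨G', A', φ, hlf, fun X hX hX' => hcut' X hX hX', hpar⟩

end

theorem pf_DS (h0 : T_RQ) (h1 : T_CSP) (h2 : T_LFT) : T_DS := by
  intro V E I _ _ _ _ G A a b J c z hDH hc1 hJ htk hyp
  obtain ⟨hce, hec, hJc, hpar⟩ := hDH
  have hfa : ∀ i ∈ J, a i ≠ z := by
    intro i hi h
    have hh : (J.filter (fun i => a i = z)).card = 0 := by unfold tk at htk; omega
    rw [card_eq_zero, filter_eq_empty_iff] at hh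
    exact hh hi h
  have hfb : ∀ i ∈ J, b i ≠ z := by
    intro i hi h
    have hh : (J.filter (fun i => b i = z)).card = 0 := by unfold tk at htk; omega
    rw [card_eq_zero, filter_eq_empty_iff] at hh
    exact hh hi h
  obtain ⟨i0, hi0⟩ := hJ
  have huniv : ({z} : Finset V) ≠ univ := by
    intro h
    have h' : a i0 ∈ ({z} : Finset V) := by rw [h]; exact mem_univ _
    exact hfa i0 hi0 (mem_singleton.1 h')
  have hcz : c ≤ cn G A {z} := hec {z} (singleton_nonempty z) huniv
  have hevz : Even (cn G A {z}) := by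
    have := hpar z
    rwa [htk, add_zero] at this
  obtain ⟨G', A', φ, hlf, hec', hpar'⟩ := reduce h0 h1 G A z c hce hevz (by omega)
    (fun X hX hne => hec X hne (fun h => hX (by rw [h]; exact mem_univ _)))
  let d : {x : V // x ≠ z} := ⟨a i0, hfa i0 hi0⟩
  let a' : I → {x : V // x ≠ z} := fun i => if h : a i ≠ z then ⟨a i, h⟩ else d
  let b' : I → {x : V // x ≠ z} := fun i => if h : b i ≠ z then ⟨b i, h⟩ else d
  have ha' : ∀ i ∈ J, (a' i).1 = a i := by
    intro i hi
    simp only [a']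
    rw [dif_pos (hfa i hi)]
  have hb' : ∀ i ∈ J, (b' i).1 = b i := by
    intro i hi
    simp only [b']
    rw [dif_pos (hfb i hi)]
  have htk' : ∀ x : {x : V // x ≠ z}, tk a' b' J x = tk a b J x.1 := by
    intro x
    unfold tk
    congr 1
    · congr 1
      apply filter_congr
      intro i hi
      rw [← ha' i hi, Subtype.ext_iff]
    · congr 1
      apply filter_congr
      intro i hi
      rw [← hb' i hi, Subtype.ext_iff]
  have hDH' : DH G' A' a' b' J c := by
    refine ⟨hce, hec', hJc, ?_⟩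
    intro x
    rw [htk']
    have e1 := hpar' x
    have e2 := hpar x.1
    obtain ⟨k1, hk1⟩ := e1
    obtain ⟨k2, hk2⟩ := e2
    rw [Nat.even_iff]
    omega
  obtain ⟨F', hF1, hF2, hF3⟩ := hyp G' A' a' b' hDH'
  obtain ⟨l1, -, l3⟩ := h2 V E {x : V // x ≠ z} E G A G' A' Subtype.val φ hlf
  refine ⟨fun i => (F' i).biUnion φ, ?_, ?_, ?_⟩
  · intro i hi
    exact biUnion_subset.2 (fun e he => hlf.sub e (hF1 i hi he))
  · intro i hi j hj hij
    exact l3 (F' i) (F' j) (hF1 i hi) (hF1 j hj) (hF2 i hi j hj hij)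
  · intro i hi
    have := l1 (F' i) (hF1 i hi) (a' i) (b' i) (hF3 i hi)
    rwa [ha' i hi, hb' i hi] at this

end Pool.Agent.H85.WE
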